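import Mathlib
import Pool.Agent.H60.K33Map

set_option autoImplicit false

/-!
MP_de0764_gt, question Q1, answered in the negative, in a form which covers every reading of
cyclic element and of completely regular, and which is stronger than the negated form of the
problem: the target may be any Hausdorff space that contains a copy of `K₃,₃`, the source is any
compact subset of the plane, and openness of the map, connectedness of the source and the two
conditions on the fibres (nondegenerate, decomposable) are not used.

`K33` is the complete bipartite graph on three plus three vertices as a subspace of `ℝ³ × ℝ³`: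
the point with parameter `t` on the edge `i j` is `((1 - t) • e_i, t • e_j)`.
-/

namespace Pool.Agent.Results.MP_de0764_gt.NonplanarTargets

/-- The graph `K₃,₃` with its edges. -/
def K33 : Set ((Fin 3 → ℝ) × (Fin 3 → ℝ)) :=
  {z | ∃ (i j : Fin 3) (t : ℝ), 0 ≤ t ∧ t ≤ 1 ∧ z = (Pi.single i (1 - t), Pi.single j t)}

/-- Every connected subset of `A` with more than one point has nonempty interior in `A`. -/
def CompletelyRegular {Y : Type*} [TopologicalSpace Y] (A : Set Y) : Prop :=
  ∀ L : Set Y, L ⊆ A → IsConnected L → L.Nontrivial →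
    ∃ U : Set Y, IsOpen U ∧ (U ∩ A).Nonempty ∧ U ∩ A ⊆ L

theorem K33_eq : K33 = Set.range Pool.Agent.H60.K33.phi := by
  ext z
  constructor
  · rintro ⟨i, j, t, h0, h1, rfl⟩
    exact Pool.Agent.H60.K33.pt_mem i j t h0 h1
  · rintro ⟨⟨⟨i, j⟩, t⟩, rfl⟩
    exact ⟨i, j, t, t.2.1, t.2.2, rfl⟩

theorem result :
    (CompactSpace K33 ∧ ConnectedSpace K33 ∧ LocallyConnectedSpace K33 ∧ Nontrivial K33 ∧
      ∀ A : Set K33, CompletelyRegular A) ∧
    ∀ (Z : Type*) [TopologicalSpace Z] [T2Space Z] (e : K33 → Z), Topology.IsEmbedding e →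
      ∀ X : Set (EuclideanSpace ℝ (Fin 2)), IsCompact X →
        ∀ f : X → Z, Continuous f → Set.range e ⊆ Set.range f →
          ∃ y : K33, ¬ IsConnected (f ⁻¹' {e y}) := by
  rw [K33_eq]
  refine ⟨⟨inferInstance, inferInstance, inferInstance, inferInstance, ?_⟩, ?_⟩
  · intro A L hLA hL hL2
    obtain ⟨U, hU, hUne, hUL⟩ :=
      Pool.Agent.H60.K33.exists_open_subset L hL.isPreconnected hL2
    refine ⟨U, hU, ?_, fun x hx => hUL hx.1⟩
    obtain ⟨x, hx⟩ := hUne
    exact ⟨x, hx, hLA (hUL hx)⟩
  · intro Z _ _ e he X hX f hf hsurj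
    exact Pool.Agent.H60.K33Map.no_monotone_map_embedding e he X hX f hf hsurj

end Pool.Agent.Results.MP_de0764_gt.NonplanarTargets
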